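import Pool.Agent.Y35.VR.Stm

/-!
# Project VR: normal forms up to conjugacy (S_NF)
-/

set_option autoImplicit false

namespace Pool.Agent.Y473.VR.Nf

open Pool.Agent.Y35.VR

section

variable {P Q R : Type} [Group P] [Group Q] [Group R] (φ : R →* P) (ψ : R →* Q)

/-- The value of a list of pairs. -/
def W (l : List (P × Q)) : Amal φ ψ := (l.map fun a => ir φ ψ a.2 * il φ ψ a.1).prod

theorem W_nil : W φ ψ [] = 1 := rfl

theorem W_cons (a : P × Q) (l : List (P × Q)) :
    W φ ψ (a :: l) = ir φ ψ a.2 * il φ ψ a.1 * W φ ψ l := by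
  unfold W
  rw [List.map_cons, List.prod_cons]

theorem W_append (l l' : List (P × Q)) : W φ ψ (l ++ l') = W φ ψ l * W φ ψ l' := by
  unfold W
  rw [List.map_append, List.prod_append]

theorem il_eq_ir (r : R) : il φ ψ (φ r) = ir φ ψ (ψ r) := by
  show (QuotientGroup.mk' (amalKer φ ψ)) _ = (QuotientGroup.mk' (amalKer φ ψ)) _
  rw [QuotientGroup.mk'_eq_mk']
  refine ⟨(Monoid.Coprod.inl (φ r))⁻¹ * (Monoid.Coprod.inr (ψ r)), ?_, by group⟩
  have h1 : Monoid.Coprod.inl (φ r) * (Monoid.Coprod.inr (ψ r))⁻¹ ∈ amalKer φ ψ :=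
    Subgroup.subset_normalClosure ⟨r, rfl⟩
  have h2 := (inferInstance : (amalKer φ ψ).Normal).conj_mem _
    ((amalKer φ ψ).inv_mem h1) (Monoid.Coprod.inr (ψ r))⁻¹
  have h3 := (inferInstance : (amalKer φ ψ).Normal).conj_mem _
    ((amalKer φ ψ).inv_mem h1) (Monoid.Coprod.inl (φ r))⁻¹
  have e : (Monoid.Coprod.inl (φ r))⁻¹ * (Monoid.Coprod.inr (ψ r)) =
      (Monoid.Coprod.inl (φ r))⁻¹ * (Monoid.Coprod.inl (φ r) *
        (Monoid.Coprod.inr (ψ r))⁻¹)⁻¹ * ((Monoid.Coprod.inl (φ r))⁻¹)⁻¹ := by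
    group
  rw [e]
  exact h3

theorem exists_W (g : Amal φ ψ) : ∃ l, W φ ψ l = g := by
  obtain ⟨x, rfl⟩ := QuotientGroup.mk'_surjective (amalKer φ ψ) g
  induction x using Monoid.Coprod.induction_on with
  | inl p =>
    refine ⟨[(p, 1)], ?_⟩
    rw [W_cons, W_nil, map_one, one_mul, mul_one]
    rfl
  | inr q =>
    refine ⟨[(1, q)], ?_⟩
    rw [W_cons, W_nil, map_one, mul_one, mul_one]
    rfl
  | mul x y hx hy =>
    obtain ⟨l, hl⟩ := hx
    obtain ⟨l', hl'⟩ := hy
    exact ⟨l ++ l', by rw [W_append, hl, hl', map_mul]⟩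

/-- The alternatives. -/
def C (g : Amal φ ψ) : Prop :=
  (∃ p, IsConj g (il φ ψ p)) ∨ (∃ q, IsConj g (ir φ ψ q)) ∨
    ∃ l : List (P × Q), l ≠ [] ∧ (∀ a ∈ l, (∀ r, φ r ≠ a.1) ∧ ∀ r, ψ r ≠ a.2) ∧
      IsConj g (W φ ψ l)

theorem C_conj {g g' : Amal φ ψ} (h : IsConj g g') (hC : C φ ψ g') : C φ ψ g := by
  rcases hC with ⟨p, hp⟩ | ⟨q, hq⟩ | ⟨l, h1, h2, h3⟩
  · exact Or.inl ⟨p, h.trans hp⟩
  · exact Or.inr (Or.inl ⟨q, h.trans hq⟩)
  · exact Or.inr (Or.inr ⟨l, h1, h2, h.trans h3⟩)

theorem conj_mul (a b : Amal φ ψ) : IsConj (a * b) (b * a) := by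
  rw [isConj_iff]
  exact ⟨b, by group⟩

theorem C_W : ∀ (n : ℕ) (l : List (P × Q)), l.length = n → C φ ψ (W φ ψ l) := by
  intro n
  induction n using Nat.strong_induction_on with
  | _ n ih =>
    intro l hl
    by_cases hgood : ∀ a ∈ l, (∀ r, φ r ≠ a.1) ∧ ∀ r, ψ r ≠ a.2
    · by_cases hne : l = []
      · subst hne
        refine Or.inl ⟨1, ?_⟩
        rw [W_nil, map_one]
      · exact Or.inr (Or.inr ⟨l, hne, hgood, IsConj.refl _⟩)
    · push Not at hgood
      obtain ⟨a, ha, hbad⟩ := hgood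
      obtain ⟨l1, l2, rfl⟩ := List.append_of_mem ha
      have hbad' : (∃ r, φ r = a.1) ∨ ∃ r, ψ r = a.2 := by
        by_cases h1 : ∃ r, φ r = a.1
        · exact Or.inl h1
        · push Not at h1
          exact Or.inr (hbad h1)
      have hlen : l1.length + l2.length + 1 = n := by
        rw [← hl, List.length_append, List.length_cons]
        ring
      rcases hbad' with ⟨r, hr⟩ | ⟨r, hr⟩
      · -- `x = φ r`, rotate so that the bad pair is the first one
        have hconj : IsConj (W φ ψ (l1 ++ a :: l2)) (W φ ψ (a :: (l2 ++ l1))) := by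
          rw [W_append, show a :: (l2 ++ l1) = (a :: l2) ++ l1 from rfl, W_append]
          exact conj_mul φ ψ _ _
        apply C_conj φ ψ hconj
        have hlen2 : (l2 ++ l1).length = n - 1 := by
          rw [List.length_append]
          omega
        generalize l2 ++ l1 = m at hlen2
        cases m with
        | nil =>
          refine Or.inr (Or.inl ⟨a.2 * ψ r, ?_⟩)
          rw [W_cons, W_nil, ← hr, il_eq_ir, mul_one, map_mul]
        | cons b m =>
          have e : W φ ψ (a :: b :: m) = W φ ψ ((b.1, a.2 * ψ r * b.2) :: m) := by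
            rw [W_cons, W_cons, W_cons, ← hr, il_eq_ir, map_mul, map_mul]
            group
          rw [e]
          rw [List.length_cons] at hlen2
          exact ih (m.length + 1) (by omega) _ (by rw [List.length_cons])
      · -- `y = ψ r`, rotate so that the bad pair is the last one
        have hconj : IsConj (W φ ψ (l1 ++ a :: l2)) (W φ ψ ((l2 ++ l1) ++ [a])) := by
          rw [show l1 ++ a :: l2 = (l1 ++ [a]) ++ l2 by simp, W_append,
            show (l2 ++ l1) ++ [a] = l2 ++ (l1 ++ [a]) by simp, W_append φ ψ l2]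
          exact conj_mul φ ψ _ _
        apply C_conj φ ψ hconj
        have hlen2 : (l2 ++ l1).length = n - 1 := by
          rw [List.length_append]
          omega
        generalize l2 ++ l1 = m at hlen2
        rcases List.eq_nil_or_concat m with hm | ⟨m', b, hm⟩
        · subst hm
          refine Or.inl ⟨φ r * a.1, ?_⟩
          rw [List.nil_append, W_cons, W_nil, ← hr, ← il_eq_ir, mul_one, map_mul]
        · have hm2 : m = m' ++ [b] := by rw [hm, List.concat_eq_append]
          have e : W φ ψ (m ++ [a]) = W φ ψ (m' ++ [(b.1 * φ r * a.1, b.2)]) := by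
            rw [hm2, W_append, W_append, W_append, W_cons, W_cons, W_cons, W_nil, ← hr,
              ← il_eq_ir, map_mul, map_mul]
            group
          rw [e]
          rw [hm2, List.length_append, List.length_singleton] at hlen2
          exact ih (m'.length + 1) (by omega) _ (by
            rw [List.length_append, List.length_singleton])

end

/-- NF. -/
theorem t_nf : S_NF := by
  intro P Q R _ _ _ φ ψ g
  obtain ⟨l, rfl⟩ := exists_W φ ψ g
  rcases C_W φ ψ l.length l rfl with ⟨p, hp⟩ | ⟨q, hq⟩ | ⟨l', h1, h2, h3⟩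
  · exact Or.inl ⟨p, hp⟩
  · exact Or.inr (Or.inl ⟨q, hq⟩)
  · refine Or.inr (Or.inr ?_)
    cases l' with
    | nil => exact absurd rfl h1
    | cons b m =>
      refine ⟨m.length, fun i => ((b :: m).get i).1, fun i => ((b :: m).get i).2,
        fun i r => (h2 _ (List.get_mem _ _)).1 r, fun i r => (h2 _ (List.get_mem _ _)).2 r, ?_⟩
      have e : (List.ofFn fun i : Fin (m.length + 1) =>
          ir φ ψ ((b :: m).get i).2 * il φ ψ ((b :: m).get i).1) =
          (b :: m).map fun a => ir φ ψ a.2 * il φ ψ a.1 := by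
        conv_rhs => rw [← List.ofFn_get (b :: m)]
        rw [List.map_ofFn]
        rfl
      rw [e]
      exact h3

end Pool.Agent.Y473.VR.Nf
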