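import Pool.Agent.Y35.VR.Stm

/-!
# Project VR: S_INF, S_RF, S_SEP, S_ISO
-/

set_option autoImplicit false

namespace Pool.Agent.Y473.VR

open Pool.Agent.Y35.VR

/-- From a subgroup of finite index of a subgroup of finite index to a normal subgroup. -/
theorem core_of {G : Type} [Group G] (K : Subgroup G) (hK : K.FiniteIndex) (L : Subgroup K)
    (hL : L.FiniteIndex) : ∃ N : Subgroup G, N.Normal ∧ N.FiniteIndex ∧
      ∀ x ∈ N, ∃ h : x ∈ K, (⟨x, h⟩ : K) ∈ L := by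
  have h1 : (L.map K.subtype).FiniteIndex := by
    refine ⟨?_⟩
    rw [Subgroup.index_map_subtype]
    exact mul_ne_zero hL.index_ne_zero hK.index_ne_zero
  refine ⟨(L.map K.subtype).normalCore, inferInstance, inferInstance, fun x hx => ?_⟩
  obtain ⟨y, hy, hyx⟩ := Subgroup.normalCore_le _ hx
  have h2 : (y : G) = x := hyx
  subst h2
  exact ⟨y.2, hy⟩

/-- The isomorphism of the infinite cyclic group with `ℤ`. -/
theorem exists_iso {G : Type} [Group G] (g : G) (hg : ¬ IsOfFinOrder g) :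
    ∃ f : Subgroup.zpowers g →* Zz, Function.Injective f := by
  let F : Zz →* Subgroup.zpowers g := zpowersHom (Subgroup.zpowers g) ⟨g, Subgroup.mem_zpowers g⟩
  have hF : ∀ z : Zz, ((F z : Subgroup.zpowers g) : G) = g ^ (Multiplicative.toAdd z) := by
    intro z
    rfl
  have hinj : Function.Injective F := by
    intro a b hab
    have h1 : g ^ (Multiplicative.toAdd a) = g ^ (Multiplicative.toAdd b) := by
      rw [← hF, ← hF, hab]
    have h2 := injective_zpow_iff_not_isOfFinOrder.mpr hg h1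
    exact Multiplicative.toAdd.injective h2
  have hsurj : Function.Surjective F := by
    rintro ⟨x, hx⟩
    obtain ⟨k, rfl⟩ := Subgroup.mem_zpowers_iff.mp hx
    exact ⟨Multiplicative.ofAdd k, Subtype.ext (hF _)⟩
  let e := MulEquiv.ofBijective F ⟨hinj, hsurj⟩
  exact ⟨e.symm.toMonoidHom, e.symm.injective⟩

/-- INF. -/
theorem t_inf : S_INF := by
  intro G _ hV g hg
  obtain ⟨K, hle, ρ, hK, hρ⟩ := hV g
  obtain ⟨f, hf⟩ := exists_iso g hg
  have hN : K.normalCore ≤ K := Subgroup.normalCore_le K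
  refine ⟨K.normalCore, f.comp (ρ.comp (Subgroup.inclusion hN)), inferInstance, inferInstance, ?_⟩
  have hi : K.normalCore.index ≠ 0 := Subgroup.FiniteIndex.index_ne_zero
  obtain ⟨m, hm0, _, hm⟩ := Subgroup.exists_pow_mem_of_index_ne_zero hi g
  refine ⟨m, hm, hm0, fun h1 => ?_⟩
  have h2 : f (ρ (Subgroup.inclusion hN ⟨g ^ m, hm⟩)) = 1 := h1
  rw [map_eq_one_iff f hf] at h2
  have hmem : g ^ m ∈ Subgroup.zpowers g := Subgroup.pow_mem _ (Subgroup.mem_zpowers g) m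
  have h3 : ρ (Subgroup.inclusion hN ⟨g ^ m, hm⟩) = ⟨g ^ m, hmem⟩ := hρ ⟨g ^ m, hmem⟩
  rw [h3] at h2
  have h4 : g ^ m = 1 := congrArg Subtype.val h2
  exact hg (isOfFinOrder_iff_pow_eq_one.mpr ⟨m, hm0, h4⟩)

/-- RF. -/
theorem t_rf : S_RF := by
  intro G _ hV g hg
  by_cases hfin : IsOfFinOrder g
  · obtain ⟨K, hle, ρ, hK, hρ⟩ := hV g
    have hF : Finite (Subgroup.zpowers g) := (finite_zpowers.mpr hfin).to_subtype
    obtain ⟨N, h1, h2, h3⟩ := core_of K hK ρ.ker inferInstance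
    refine ⟨N, h1, h2, fun hgN => ?_⟩
    obtain ⟨h4, h5⟩ := h3 g hgN
    rw [MonoidHom.mem_ker] at h5
    have h6 : ρ ⟨g, h4⟩ = ⟨g, Subgroup.mem_zpowers g⟩ := hρ ⟨g, Subgroup.mem_zpowers g⟩
    rw [h6] at h5
    exact hg (congrArg Subtype.val h5)
  · obtain ⟨N, χ, hN1, hN2, m, hm, hm0, hχ⟩ := t_inf G hV g hfin
    set z : ℤ := Multiplicative.toAdd (χ ⟨g ^ m, hm⟩) with hz
    have hz0 : z ≠ 0 := by
      intro h
      apply hχ
      exact Multiplicative.toAdd.injective h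
    set n : ℕ := 2 * z.natAbs with hn
    have hn0 : n ≠ 0 := by
      have := Int.natAbs_pos.mpr hz0
      omega
    have : NeZero n := ⟨hn0⟩
    let π : Zz →* Multiplicative (ZMod n) := AddMonoidHom.toMultiplicative (Int.castAddHom (ZMod n))
    have : Finite (Multiplicative (ZMod n)) := inferInstanceAs (Finite (ZMod n))
    obtain ⟨N', h1, h2, h3⟩ := core_of N hN2 (π.comp χ).ker inferInstance
    refine ⟨N', h1, h2, fun hgN => ?_⟩
    obtain ⟨h4, h5⟩ := h3 (g ^ m) (Subgroup.pow_mem _ hgN m)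
    rw [MonoidHom.mem_ker] at h5
    have h6 : ((z : ℤ) : ZMod n) = 0 := h5
    rw [ZMod.intCast_zmod_eq_zero_iff_dvd] at h6
    obtain ⟨k, hk⟩ := h6
    have h7 : z.natAbs = n * k.natAbs := by
      rw [hk, Int.natAbs_mul, Int.natAbs_natCast]
    have h8 : 0 < z.natAbs := Int.natAbs_pos.mpr hz0
    rcases Nat.eq_zero_or_pos k.natAbs with h9 | h9
    · rw [h9, mul_zero] at h7
      omega
    · have : n ≤ n * k.natAbs := Nat.le_mul_of_pos_right n h9
      omega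

theorem sep_single (hRF : S_RF) {G : Type} [Group G] (hV : VRC G) (g y : G)
    (hy : y ∉ Subgroup.zpowers g) :
    ∃ N : Subgroup G, N.Normal ∧ N.FiniteIndex ∧ ∀ j : ℤ, (g ^ j)⁻¹ * y ∉ N := by
  obtain ⟨K, hle, ρ, hK, hρ⟩ := hV g
  have hgj : ∀ j : ℤ, g ^ j ∈ Subgroup.zpowers g := fun j => ⟨j, rfl⟩
  by_cases hyK : y ∈ K
  · have hz : ((ρ ⟨y, hyK⟩ : Subgroup.zpowers g) : G)⁻¹ * y ≠ 1 := by
      intro h
      rw [inv_mul_eq_one] at h
      exact hy (h ▸ (ρ ⟨y, hyK⟩).2)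
    obtain ⟨M, hM1, hM2, hM3⟩ := hRF G hV _ hz
    have : Finite (G ⧸ M) := Subgroup.finite_quotient_of_finiteIndex
    let θ : K →* (G ⧸ M) × (G ⧸ M) := MonoidHom.prod ((QuotientGroup.mk' M).comp K.subtype)
      ((QuotientGroup.mk' M).comp ((Subgroup.zpowers g).subtype.comp ρ))
    obtain ⟨N, h1, h2, h3⟩ := core_of K hK θ.ker inferInstance
    refine ⟨N, h1, h2, fun j hj => ?_⟩
    obtain ⟨h4, h5⟩ := h3 _ hj
    rw [MonoidHom.mem_ker] at h5
    have h6 : ((g ^ j)⁻¹ * y) ∈ M := by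
      have : QuotientGroup.mk' M ((g ^ j)⁻¹ * y) = 1 := congrArg Prod.fst h5
      exact (QuotientGroup.eq_one_iff _).mp this
    have h7 : ((ρ ⟨(g ^ j)⁻¹ * y, h4⟩ : Subgroup.zpowers g) : G) ∈ M := by
      have : QuotientGroup.mk' M ((ρ ⟨(g ^ j)⁻¹ * y, h4⟩ : Subgroup.zpowers g) : G) = 1 :=
        congrArg Prod.snd h5
      exact (QuotientGroup.eq_one_iff _).mp this
    have h8 : (⟨y, hyK⟩ : K) = ⟨g ^ j, hle (hgj j)⟩ * ⟨(g ^ j)⁻¹ * y, h4⟩ := by
      apply Subtype.ext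
      show y = g ^ j * ((g ^ j)⁻¹ * y)
      group
    have h9 : ρ ⟨g ^ j, hle (hgj j)⟩ = ⟨g ^ j, hgj j⟩ := hρ ⟨g ^ j, hgj j⟩
    have h10 : ((ρ ⟨y, hyK⟩ : Subgroup.zpowers g) : G) =
        g ^ j * ((ρ ⟨(g ^ j)⁻¹ * y, h4⟩ : Subgroup.zpowers g) : G) := by
      rw [h8, map_mul, h9]
      rfl
    apply hM3
    rw [h10]
    have h11 : (g ^ j * ((ρ ⟨(g ^ j)⁻¹ * y, h4⟩ : Subgroup.zpowers g) : G))⁻¹ * y =
        ((ρ ⟨(g ^ j)⁻¹ * y, h4⟩ : Subgroup.zpowers g) : G)⁻¹ * ((g ^ j)⁻¹ * y) := by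
      group
    rw [h11]
    exact M.mul_mem (M.inv_mem h7) h6
  · refine ⟨K.normalCore, inferInstance, inferInstance, fun j hj => hyK ?_⟩
    have h1 := Subgroup.normalCore_le K hj
    have h2 := K.mul_mem (hle (hgj j)) h1
    rwa [mul_inv_cancel_left] at h2

/-- SEP. -/
theorem t_sep : S_RF → S_SEP := by
  intro hRF G R _ _ hV φ hR x hx
  obtain ⟨r0, hr0⟩ := hR
  have : Finite (R ⧸ Subgroup.zpowers r0) := Subgroup.finite_quotient_of_finiteIndex
  have hex : ∀ q : R ⧸ Subgroup.zpowers r0, ∃ N : Subgroup G, N.Normal ∧ N.FiniteIndex ∧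
      ∀ j : ℤ, ((φ r0) ^ j)⁻¹ * ((φ q.out)⁻¹ * x) ∉ N := by
    intro q
    apply sep_single hRF hV
    rintro ⟨j, hj⟩
    apply hx (q.out * r0 ^ j)
    have hj' : (φ r0) ^ j = (φ q.out)⁻¹ * x := hj
    rw [map_mul, map_zpow, hj', mul_inv_cancel_left]
  choose N hN1 hN2 hN3 using hex
  refine ⟨⨅ q, N q, Subgroup.normal_iInf_normal hN1, Subgroup.finiteIndex_iInf hN2, ?_⟩
  intro r hr
  obtain ⟨h, hh⟩ := QuotientGroup.mk_out_eq_mul (Subgroup.zpowers r0) r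
  obtain ⟨j, hj⟩ := Subgroup.mem_zpowers_iff.mp h.2
  have h1 : r = (QuotientGroup.mk r : R ⧸ Subgroup.zpowers r0).out * r0 ^ (-j) := by
    rw [hh, zpow_neg, hj, mul_inv_cancel_right]
  have h2 := Subgroup.mem_iInf.mp hr (QuotientGroup.mk r)
  apply hN3 (QuotientGroup.mk r) (-j)
  have h3 : (φ r)⁻¹ * x = ((φ r0) ^ (-j))⁻¹ *
      ((φ (QuotientGroup.mk r : R ⧸ Subgroup.zpowers r0).out)⁻¹ * x) := by
    conv_lhs => rw [h1]
    rw [map_mul, map_zpow, mul_inv_rev, mul_assoc]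
  rw [← h3]
  exact h2

theorem isVR_map {G G' : Type} [Group G] [Group G'] (F : G ≃* G') (H : Subgroup G)
    (h : IsVR H) : IsVR (H.map F.toMonoidHom) := by
  obtain ⟨K, hle, ρ, hK, hρ⟩ := h
  refine ⟨K.map F.toMonoidHom, Subgroup.map_mono hle,
    ((F.subgroupMap H).toMonoidHom.comp ρ).comp (F.subgroupMap K).symm.toMonoidHom, ?_, ?_⟩
  · refine ⟨?_⟩
    have : (K.map F.toMonoidHom).index = K.index := Subgroup.index_map_equiv K F
    rw [this]
    exact hK.index_ne_zero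
  · intro x
    obtain ⟨y, hy, hyx⟩ := x.2
    have hx' : x.1 ∈ K.map F.toMonoidHom := Subgroup.map_mono hle x.2
    have h1 : (F.subgroupMap K).symm ⟨x.1, hx'⟩ = ⟨y, hle hy⟩ := by
      rw [MulEquiv.symm_apply_eq]
      exact Subtype.ext hyx.symm
    have h2 : ρ ⟨y, hle hy⟩ = ⟨y, hy⟩ := hρ ⟨y, hy⟩
    have h3 : (F.subgroupMap H) (ρ ((F.subgroupMap K).symm ⟨x.1, hx'⟩)) = x := by
      rw [h1, h2]
      exact Subtype.ext hyx
    exact h3

/-- ISO. -/
theorem t_iso : S_ISO := by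
  intro G G' _ _ e g g' hc h
  obtain ⟨c, hc⟩ := isConj_iff.mp hc
  let F : G ≃* G' := e.trans (MulAut.conj c)
  have h1 : F g = g' := hc
  have h2 := isVR_map F _ h
  rw [MonoidHom.map_zpowers] at h2
  have h3 : F.toMonoidHom g = g' := h1
  rwa [h3] at h2

end Pool.Agent.Y473.VR
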